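import Pool.Agent.H933.LL.Stm2

/-!
# P_avg: moving averages of continuous functions on the circle
-/

set_option autoImplicit false

open MeasureTheory Metric AddCircle Set
open scoped Real InnerProductSpace

namespace Pool.Agent.H51.LL

lemma parseval (f : C(UnitAddCircle, ℂ)) :
    HasSum (fun i => ‖fourierCoeff f i‖ ^ 2) (∫ t : UnitAddCircle, ‖f t‖ ^ 2 ∂haarAddCircle) := by
  have h := hasSum_sq_fourierCoeff (ContinuousMap.toLp (E := ℂ) 2 haarAddCircle ℂ f)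
  simp_rw [fourierCoeff_toLp] at h
  have e : (∫ t : UnitAddCircle, ‖(ContinuousMap.toLp (E := ℂ) 2 haarAddCircle ℂ f) t‖ ^ 2
      ∂haarAddCircle) = ∫ t : UnitAddCircle, ‖f t‖ ^ 2 ∂haarAddCircle := by
    refine integral_congr_ae ?_
    filter_upwards [ContinuousMap.coeFn_toLp (E := ℂ) (p := 2) haarAddCircle (𝕜 := ℂ) f] with t ht
    rw [ht]
  rw [e] at h
  exact h

lemma coeff_shift (f : C(UnitAddCircle, ℂ)) (h : UnitAddCircle) (n : ℤ) :
    fourierCoeff (fun t => f (t + h)) n = fourier n h * fourierCoeff f n := by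
  unfold fourierCoeff
  have h1 : ∀ t : UnitAddCircle, (fourier (-n) t : ℂ) • f (t + h)
      = (fun u => fourier n h * ((fourier (-n) u : ℂ) • f u)) (t + h) := by
    intro t
    simp only [smul_eq_mul]
    rw [← mul_assoc]
    congr 1
    have h2 : (fourier (-n) (t + h) : ℂ) = fourier (-n) t * fourier (-n) h := by
      simp only [fourier_apply, smul_add, AddCircle.toCircle_add, Circle.coe_mul]
    have h3 : (fourier n h : ℂ) * fourier (-n) h = 1 := by
      rw [← fourier_add, add_neg_cancel, fourier_zero]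
    rw [h2]
    calc (fourier (-n) t : ℂ) = fourier (-n) t * (fourier n h * fourier (-n) h) := by
          rw [h3, mul_one]
      _ = _ := by ring
  simp_rw [h1]
  rw [integral_add_right_eq_self (μ := haarAddCircle)
    (fun u : UnitAddCircle => fourier n h * ((fourier (-n) u : ℂ) • f u)) h]
  exact integral_const_mul _ _

/-- the Fourier coefficient as a continuous linear functional -/
noncomputable def coeffL (n : ℤ) : C(UnitAddCircle, ℂ) →L[ℂ] ℂ :=
  (innerSL ℂ (fourierLp (T := 1) 2 n)).comp (ContinuousMap.toLp (E := ℂ) 2 haarAddCircle ℂ)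

lemma coeffL_apply (n : ℤ) (f : C(UnitAddCircle, ℂ)) : coeffL n f = fourierCoeff f n := by
  rw [coeffL, ContinuousLinearMap.comp_apply, innerSL_apply_apply, ← fourierCoeff_toLp,
    ← fourierBasis_repr, HilbertBasis.repr_apply_apply, coe_fourierBasis]

/-- the translates -/
noncomputable def sh (g : C(UnitAddCircle, ℂ)) (s : ℝ) : C(UnitAddCircle, ℂ) :=
  ⟨fun t => g (t + (s : UnitAddCircle)), by fun_prop⟩

lemma sh_apply (g : C(UnitAddCircle, ℂ)) (s : ℝ) (t : UnitAddCircle) :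
    sh g s t = g (t + (s : UnitAddCircle)) := rfl

lemma continuous_sh (g : C(UnitAddCircle, ℂ)) : Continuous (sh g) := by
  refine ContinuousMap.continuous_of_continuous_uncurry _ ?_
  have h : Continuous fun p : ℝ × UnitAddCircle => g (p.2 + (p.1 : UnitAddCircle)) := by
    have h1 : Continuous fun p : ℝ × UnitAddCircle => (p.1 : UnitAddCircle) :=
      (AddCircle.continuous_mk' 1).comp continuous_fst
    exact g.continuous.comp (continuous_snd.add h1)
  exact h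

/-- the moving average -/
noncomputable def mav (g : C(UnitAddCircle, ℂ)) (δ : ℝ) : C(UnitAddCircle, ℂ) :=
  (δ⁻¹ : ℂ) • ∫ s in (0 : ℝ)..δ, sh g s

lemma mav_apply (g : C(UnitAddCircle, ℂ)) (δ : ℝ) (t : UnitAddCircle) :
    mav g δ t = (δ⁻¹ : ℂ) * ∫ s in (0 : ℝ)..δ, g (t + (s : UnitAddCircle)) := by
  have h := (ContinuousMap.evalCLM ℂ t : C(UnitAddCircle, ℂ) →L[ℂ] ℂ).intervalIntegral_comp_comm
    ((continuous_sh g).intervalIntegrable (μ := volume) 0 δ)
  have h2 : mav g δ t = (δ⁻¹ : ℂ) * ((∫ s in (0 : ℝ)..δ, sh g s) t) := rfl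
  rw [h2]
  congr 1
  exact h.symm

lemma norm_mav_sub (g : C(UnitAddCircle, ℂ)) {δ ω : ℝ} (hδ : 0 < δ)
    (hω : ∀ s t : ℝ, |s - t| ≤ δ → ‖g (s : UnitAddCircle) - g (t : UnitAddCircle)‖ ≤ ω)
    (t : UnitAddCircle) : ‖g t - mav g δ t‖ ≤ ω := by
  obtain ⟨a, rfl⟩ := QuotientAddGroup.mk_surjective t
  rw [mav_apply]
  have hc : Continuous fun s : ℝ => g ((a : UnitAddCircle) + (s : UnitAddCircle)) :=
    g.continuous.comp (continuous_const.add (AddCircle.continuous_mk' 1))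
  have h1 : g (a : UnitAddCircle) - (δ⁻¹ : ℂ) * ∫ s in (0 : ℝ)..δ,
      g ((a : UnitAddCircle) + (s : UnitAddCircle))
      = (δ⁻¹ : ℂ) * ∫ s in (0 : ℝ)..δ,
        (g (a : UnitAddCircle) - g ((a : UnitAddCircle) + (s : UnitAddCircle))) := by
    rw [intervalIntegral.integral_sub (continuous_const.intervalIntegrable _ _)
      (hc.intervalIntegrable _ _), intervalIntegral.integral_const, sub_zero, mul_sub]
    congr 1
    have hδ' : (δ : ℂ) ≠ 0 := by exact_mod_cast hδ.ne'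
    rw [Complex.real_smul]
    field_simp
  rw [h1, norm_mul]
  have h2 : ‖∫ s in (0 : ℝ)..δ,
      (g (a : UnitAddCircle) - g ((a : UnitAddCircle) + (s : UnitAddCircle)))‖ ≤ ω * |δ - 0| := by
    refine intervalIntegral.norm_integral_le_of_norm_le_const fun s hs => ?_
    rw [uIoc_of_le hδ.le] at hs
    have h3 := hω a (a + s) (by
      rw [show a - (a + s) = -s by ring, abs_neg, abs_of_pos hs.1]
      exact hs.2)
    have h4 : ((a + s : ℝ) : UnitAddCircle) = (a : UnitAddCircle) + (s : UnitAddCircle) := rfl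
    rw [h4] at h3
    exact h3
  have h5 : ‖(δ⁻¹ : ℂ)‖ = δ⁻¹ := by
    rw [norm_inv, Complex.norm_real, Real.norm_of_nonneg hδ.le]
  rw [h5]
  rw [sub_zero, abs_of_pos hδ] at h2
  calc δ⁻¹ * _ ≤ δ⁻¹ * (ω * δ) := mul_le_mul_of_nonneg_left h2 (by positivity)
    _ = ω := by field_simp

/-- the multiplier -/
noncomputable def mult (δ : ℝ) (n : ℤ) : ℂ :=
  (δ⁻¹ : ℂ) * ∫ s in (0 : ℝ)..δ, (fourier n (s : UnitAddCircle) : ℂ)

lemma coeff_mav (g : C(UnitAddCircle, ℂ)) (δ : ℝ) (n : ℤ) :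
    fourierCoeff (mav g δ) n = mult δ n * fourierCoeff g n := by
  rw [← coeffL_apply, mav, map_smul, ← (coeffL n).intervalIntegral_comp_comm
    ((continuous_sh g).intervalIntegrable (μ := volume) 0 δ), mult, smul_eq_mul, mul_assoc]
  congr 1
  rw [← intervalIntegral.integral_mul_const]
  refine intervalIntegral.integral_congr fun s _ => ?_
  change coeffL n (sh g s) = (fourier n (s : UnitAddCircle) : ℂ) * fourierCoeff g n
  rw [coeffL_apply, ← coeff_shift]
  rfl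

lemma norm_mult_le_one {δ : ℝ} (hδ : 0 < δ) (n : ℤ) : ‖mult δ n‖ ≤ 1 := by
  have h5 : ‖(δ⁻¹ : ℂ)‖ = δ⁻¹ := by
    rw [norm_inv, Complex.norm_real, Real.norm_of_nonneg hδ.le]
  have h2 : ‖∫ s in (0 : ℝ)..δ, (fourier n (s : UnitAddCircle) : ℂ)‖ ≤ 1 * |δ - 0| := by
    refine intervalIntegral.norm_integral_le_of_norm_le_const fun s _ => ?_
    rw [fourier_apply, Circle.norm_coe]
  rw [sub_zero, abs_of_pos hδ, one_mul] at h2
  rw [mult, norm_mul, h5]
  calc δ⁻¹ * _ ≤ δ⁻¹ * δ := mul_le_mul_of_nonneg_left h2 (by positivity)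
    _ = 1 := by field_simp

lemma norm_mult_le {δ : ℝ} (hδ : 0 < δ) {n : ℤ} (hn : n ≠ 0) :
    ‖mult δ n‖ ≤ 1 / (π * δ) * (1 / |(n : ℝ)|) := by
  have h5 : ‖(δ⁻¹ : ℂ)‖ = δ⁻¹ := by
    rw [norm_inv, Complex.norm_real, Real.norm_of_nonneg hδ.le]
  have hn' : (0 : ℝ) < |(n : ℝ)| := abs_pos.2 (by exact_mod_cast hn)
  set c : ℂ := 2 * π * Complex.I * n with hc
  have hnC : (n : ℂ) ≠ 0 := by exact_mod_cast hn
  have hc0 : c ≠ 0 := by
    rw [hc]
    have := Real.pi_ne_zero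
    have h : (π : ℂ) ≠ 0 := by exact_mod_cast this
    simp [h, hnC]
  have h1 : ∀ s : ℝ, (fourier n (s : UnitAddCircle) : ℂ) = Complex.exp (c * s) := by
    intro s
    rw [fourier_coe_apply, hc]
    congr 1
    simp
  have h2 : (∫ s in (0 : ℝ)..δ, (fourier n (s : UnitAddCircle) : ℂ))
      = (Complex.exp (c * δ) - Complex.exp (c * (0 : ℝ))) / c := by
    simp_rw [h1]
    exact integral_exp_mul_complex hc0
  have hexp : ∀ s : ℝ, ‖Complex.exp (c * s)‖ = 1 := by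
    intro s
    rw [← h1 s, fourier_apply, Circle.norm_coe]
  have h3 : ‖c‖ = 2 * π * |(n : ℝ)| := by
    rw [hc, norm_mul, norm_mul, norm_mul, Complex.norm_I, mul_one, Complex.norm_real,
      Real.norm_of_nonneg Real.pi_pos.le, Complex.norm_intCast]
    simp
  have h4 : ‖Complex.exp (c * δ) - Complex.exp (c * (0 : ℝ))‖ ≤ 2 := by
    calc _ ≤ ‖Complex.exp (c * δ)‖ + ‖Complex.exp (c * (0 : ℝ))‖ := norm_sub_le _ _
      _ = 2 := by rw [hexp, hexp]; norm_num
  rw [mult, h2, norm_mul, h5, norm_div, h3]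
  have hpi := Real.pi_pos
  calc δ⁻¹ * (‖Complex.exp (c * δ) - Complex.exp (c * (0 : ℝ))‖ / (2 * π * |(n : ℝ)|))
      ≤ δ⁻¹ * (2 / (2 * π * |(n : ℝ)|)) := by gcongr
    _ = 1 / (π * δ) * (1 / |(n : ℝ)|) := by field_simp

/-- the square bound -/
noncomputable def sqb (δ : ℝ) (n : ℤ) : ℝ :=
  (if n = 0 then 1 else 0) + 1 / (π * δ) ^ 2 * (1 / (n : ℝ) ^ 2)

lemma sq_mult_le {δ : ℝ} (hδ : 0 < δ) (n : ℤ) : ‖mult δ n‖ ^ 2 ≤ sqb δ n := by
  unfold sqb
  by_cases hn : n = 0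
  · rw [if_pos hn]
    have h := norm_mult_le_one hδ n
    have h0 := norm_nonneg (mult δ n)
    have h2 : 0 ≤ 1 / (π * δ) ^ 2 * (1 / (n : ℝ) ^ 2) := by positivity
    nlinarith
  · rw [if_neg hn, zero_add]
    calc ‖mult δ n‖ ^ 2 ≤ (1 / (π * δ) * (1 / |(n : ℝ)|)) ^ 2 :=
          pow_le_pow_left₀ (norm_nonneg _) (norm_mult_le hδ hn) 2
      _ = _ := by rw [mul_pow, div_pow, div_pow, sq_abs, one_pow]

lemma hasSum_int_sq : HasSum (fun n : ℤ => 1 / (n : ℝ) ^ 2) (π ^ 2 / 3) := by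
  have h1 : HasSum (fun n : ℕ => 1 / ((n : ℤ) : ℝ) ^ 2) (π ^ 2 / 6) := by
    simpa using hasSum_zeta_two
  have h2 : HasSum (fun n : ℕ => 1 / (((-((n : ℤ) + 1) : ℤ)) : ℝ) ^ 2) (π ^ 2 / 6) := by
    have h3 := (hasSum_nat_add_iff' (f := fun n : ℕ => 1 / (n : ℝ) ^ 2) 1).2 hasSum_zeta_two
    simp only [Finset.range_one, Finset.sum_singleton, Nat.cast_zero] at h3
    have h4 : π ^ 2 / 6 - 1 / (0 : ℝ) ^ 2 = π ^ 2 / 6 := by norm_num
    rw [h4] at h3
    refine h3.congr_fun ?_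
    intro n
    push_cast
    ring
  have h5 := HasSum.of_nat_of_neg_add_one (f := fun n : ℤ => 1 / (n : ℝ) ^ 2) h1 h2
  have e : π ^ 2 / 6 + π ^ 2 / 6 = π ^ 2 / 3 := by ring
  rw [e] at h5
  exact h5

lemma hasSum_sqb {δ : ℝ} (hδ : 0 < δ) : HasSum (sqb δ) (1 + 1 / (3 * δ ^ 2)) := by
  have h1 : HasSum (fun n : ℤ => if n = 0 then (1 : ℝ) else 0) 1 := hasSum_ite_eq 0 1
  have h2 := hasSum_int_sq.mul_left (1 / (π * δ) ^ 2)
  have h3 := h1.add h2
  have e : 1 + 1 / (π * δ) ^ 2 * (π ^ 2 / 3) = 1 + 1 / (3 * δ ^ 2) := by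
    have := Real.pi_ne_zero
    field_simp
  rw [e] at h3
  exact h3

lemma integral_sq_le (g : C(UnitAddCircle, ℂ)) :
    ∫ t : UnitAddCircle, ‖g t‖ ^ 2 ∂haarAddCircle ≤ ‖g‖ ^ 2 := by
  have h1 : ∀ t : UnitAddCircle, ‖‖g t‖ ^ 2‖ ≤ ‖g‖ ^ 2 := by
    intro t
    rw [Real.norm_of_nonneg (by positivity)]
    exact pow_le_pow_left₀ (norm_nonneg _) (g.norm_coe_le_norm t) 2
  have h2 := norm_integral_le_of_norm_le_const (μ := (haarAddCircle : Measure UnitAddCircle))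
    (Filter.Eventually.of_forall h1)
  have h3 : (haarAddCircle : Measure UnitAddCircle).real univ = 1 := by simp
  rw [h3, mul_one] at h2
  exact (le_abs_self _).trans h2

theorem p_avg : Pool.Agent.H933.LL.P_avg := by
  intro g δ ω hδ hδ1 hω
  have hω0 : 0 ≤ ω := by
    have := hω 0 0 (by simpa using hδ.le)
    simpa using this
  rcases eq_or_lt_of_le (norm_nonneg g) with hg0 | hg
  · have hg' : g = 0 := norm_eq_zero.1 hg0.symm
    refine ⟨fun _ => 0, ?_, ?_, ?_⟩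
    · simp only [norm_zero]
      exact summable_zero
    · simp only [norm_zero, tsum_zero]
      positivity
    · intro t
      simpa [hg'] using hω0
  set G := ‖g‖ with hG
  have hpar := parseval g
  have hG2 := integral_sq_le g
  set J := ∫ t : UnitAddCircle, ‖g t‖ ^ 2 ∂haarAddCircle with hJ
  set lam : ℝ := 1 / (G * δ) with hlam
  have hlam0 : 0 < lam := by positivity
  have hb : HasSum (fun n : ℤ => (lam * ‖fourierCoeff g n‖ ^ 2 + lam⁻¹ * sqb δ n) / 2)
      ((lam * J + lam⁻¹ * (1 + 1 / (3 * δ ^ 2))) / 2) :=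
    ((hpar.mul_left lam).add ((hasSum_sqb hδ).mul_left lam⁻¹)).div_const 2
  have hle : ∀ n, ‖fourierCoeff (mav g δ) n‖
      ≤ (lam * ‖fourierCoeff g n‖ ^ 2 + lam⁻¹ * sqb δ n) / 2 := by
    intro n
    rw [coeff_mav, norm_mul]
    have h1 := sq_mult_le hδ n
    have h2 : lam⁻¹ * ‖mult δ n‖ ^ 2 ≤ lam⁻¹ * sqb δ n :=
      mul_le_mul_of_nonneg_left h1 (by positivity)
    have h3 : 0 ≤ lam * (‖fourierCoeff g n‖ - lam⁻¹ * ‖mult δ n‖) ^ 2 := by positivity
    have h4 : lam * (‖fourierCoeff g n‖ - lam⁻¹ * ‖mult δ n‖) ^ 2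
        = lam * ‖fourierCoeff g n‖ ^ 2 - 2 * (‖mult δ n‖ * ‖fourierCoeff g n‖)
          + lam⁻¹ * ‖mult δ n‖ ^ 2 := by
      field_simp
      ring
    rw [h4] at h3
    linarith
  have hsum : Summable fun n => ‖fourierCoeff (mav g δ) n‖ :=
    Summable.of_nonneg_of_le (fun _ => norm_nonneg _) hle hb.summable
  refine ⟨fourierCoeff (mav g δ), hsum, ?_, ?_⟩
  · have h1 : ∑' n, ‖fourierCoeff (mav g δ) n‖
        ≤ (lam * J + lam⁻¹ * (1 + 1 / (3 * δ ^ 2))) / 2 := by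
      rw [← hb.tsum_eq]
      exact hsum.tsum_le_tsum hle hb.summable
    have h2 : lam * J ≤ G / δ := by
      calc lam * J ≤ lam * G ^ 2 := mul_le_mul_of_nonneg_left hG2 hlam0.le
        _ = G / δ := by rw [hlam]; field_simp
    have h3 : lam⁻¹ * (1 + 1 / (3 * δ ^ 2)) ≤ 2 * (G / δ) := by
      have e : lam⁻¹ = G * δ := by rw [hlam, one_div, inv_inv]
      rw [e]
      have h4 : G * δ * (1 + 1 / (3 * δ ^ 2)) = G / δ * (δ ^ 2 + 1 / 3) := by
        field_simp
      rw [h4]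
      have h5 : δ ^ 2 + 1 / 3 ≤ 2 := by nlinarith
      have h6 : 0 ≤ G / δ := by positivity
      nlinarith
    have h7 : 0 ≤ G / δ := by positivity
    calc ∑' n, ‖fourierCoeff (mav g δ) n‖ ≤ _ := h1
      _ ≤ (G / δ + 2 * (G / δ)) / 2 := by linarith
      _ ≤ 3 * (G / δ) := by linarith
      _ = 3 * G / δ := by ring
  · intro t
    have h1 := has_pointwise_sum_fourier_series_of_summable (f := mav g δ) hsum.of_norm t
    rw [h1.tsum_eq]
    exact norm_mav_sub g hδ hω t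

end Pool.Agent.H51.LL
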